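import Pool.Agent.Helper5.LN.L3

set_option autoImplicit false

/-! Packet LN-CU2. -/

open Topology Filter Set Metric UpperHalfPlane
open scoped MatrixGroups

namespace Pool.Agent.Helper5.LN

open Helper64 Helper64.LN

lemma T1_vadd (z : ℍ) : PQ.T1 • z = (1 : ℝ) +ᵥ z := by
  apply UpperHalfPlane.ext
  rw [UpperHalfPlane.coe_specialLinearGroup_apply]
  have e : ∀ i j, ((PQ.T1 : SL(2, ℝ)) : Matrix (Fin 2) (Fin 2) ℝ) i j =
      (!![1, 1; 0, 1] : Matrix (Fin 2) (Fin 2) ℝ) i j := fun _ _ => rfl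
  rw [e, e, e, e]
  simp [add_comm]

lemma T1_zpow (n : ℤ) (z : ℍ) : (mh PQ.T1 ^ n) z = (n : ℝ) +ᵥ z := by
  have h1 : ∀ w : ℍ, mh PQ.T1 w = (1 : ℝ) +ᵥ w := T1_vadd
  have hs : ∀ (m : ℤ) (w : ℍ), (mh PQ.T1 ^ (m + 1)) w = mh PQ.T1 ((mh PQ.T1 ^ m) w) := by
    intro m w
    rw [add_comm, zpow_add, zpow_one]
    rfl
  induction n using Int.induction_on generalizing z with
  | zero =>
    simp
  | succ i ih =>
    rw [hs, ih, h1]
    push_cast
    rw [add_vadd, vadd_comm]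
  | pred i ih =>
    have h2 := hs (-(i : ℤ) - 1) z
    rw [sub_add_cancel, ih, h1] at h2
    have h3 : (mh PQ.T1 ^ (-(i : ℤ) - 1)) z = (-1 : ℝ) +ᵥ (((-(i : ℤ) : ℤ) : ℝ) +ᵥ z) := by
      rw [h2, ← add_vadd]
      simp
    rw [h3, ← add_vadd]
    congr 1
    push_cast
    ring

lemma piA_zpow (A : SL(2, ℝ)) (n : ℤ) (z : ℍ) : (piA A ^ n) (A • z) = A • ((n : ℝ) +ᵥ z) := by
  have e : piA A ^ n = mh A * (mh PQ.T1) ^ n * (mh A)⁻¹ := by
    unfold piA
    rw [map_mul, map_mul, map_inv, conj_zpow]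
  rw [e]
  change A • ((mh PQ.T1 ^ n) ((mh A).symm (A • z))) = _
  have e2 : (mh A).symm (A • z) = z := (mh A).symm_apply_apply z
  rw [e2, T1_zpow]

/-- Two points in the horoball with the same image differ by a power of the parabolic element. -/
lemma cusp_par {X : Type*} [TopologicalSpace X] {u : ℍ → X} {A : SL(2, ℝ)} {p : X}
    (hA : PQ.CuspAt u A p) {z w : ℍ} (hz : 1 < z.im) (hw : 1 < w.im)
    (h : u (A • z) = u (A • w)) : ∃ n : ℤ, (piA A ^ n) (A • z) = A • w := by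
  obtain ⟨n, hn⟩ := (hA.par z w hz hw).1 h
  refine ⟨n, ?_⟩
  rw [piA_zpow]
  congr 1
  apply UpperHalfPlane.ext
  rw [UpperHalfPlane.coe_vadd, hn]
  push_cast
  ring

theorem goalCU2.{v} (hL1 : GoalL1.{v}) (hCU1 : GoalCU1.{v}) : GoalCU2.{v} := by
  intro X _ _ p P u A hu hA f hf
  obtain ⟨hid, hag, hcj⟩ := goalL3.{v} X (insert p P) u hu
  obtain ⟨hpi, -, -⟩ := hCU1 X p (insert p P) u A hu (mem_insert _ _) hA
  have hfp : f p = p := hf.1
  -- the horoball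
  have hmem : {x : X | ∃ w : ℍ, 1 < w.im ∧ x = u (A • w)} ∈ 𝓝[≠] p := by
    rw [← hA.lim, mem_map, mem_comap]
    refine ⟨Ioi 1, Ioi_mem_atTop 1, ?_⟩
    intro z hz
    exact ⟨z, hz, rfl⟩
  have htf : Tendsto f (𝓝[≠] p) (𝓝[≠] p) := by
    rw [tendsto_nhdsWithin_iff]
    refine ⟨?_, ?_⟩
    · have h1 : Tendsto f (𝓝 p) (𝓝 (f p)) := f.continuous.tendsto p
      rw [hfp] at h1
      exact h1.mono_left nhdsWithin_le_nhds
    · filter_upwards [self_mem_nhdsWithin] with x hx h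
      apply hx
      apply f.injective
      exact h.trans hfp.symm
  have hpre := htf hmem
  rw [← hA.lim, Filter.mem_map, Filter.mem_map, mem_comap] at hpre
  obtain ⟨s, hs, hsub⟩ := hpre
  rw [mem_atTop_sets] at hs
  obtain ⟨h0, hh0⟩ := hs
  have hhigh : ∀ z : ℍ, h0 ≤ z.im → ∃ w : ℍ, 1 < w.im ∧ f (u (A • z)) = u (A • w) := by
    intro z hz
    exact hsub (hh0 _ hz)
  let z0 : ℍ := ⟨⟨0, |h0| + 1⟩, by positivity⟩
  have hz0 : ∀ t : ℝ, h0 ≤ (t +ᵥ z0).im := by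
    intro t
    rw [UpperHalfPlane.vadd_im]
    change h0 ≤ |h0| + 1
    linarith [le_abs_self h0]
  have hz0' : h0 ≤ z0.im := by
    have := hz0 0
    rwa [zero_vadd] at this
  obtain ⟨z1, hz1, he1⟩ := hhigh z0 hz0'
  obtain ⟨F, hF, hF0⟩ := hL1 X p P u hu f hf (A • z0) (A • z1) he1.symm
  refine ⟨F, hF, ?_⟩
  -- continuity
  have hcA : Continuous fun z : ℍ => A • z := (mh A).continuous
  have hcAi : Continuous fun z : ℍ => A⁻¹ • z := (mh A⁻¹).continuous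
  have hct : Continuous fun t : ℝ => t +ᵥ z0 := by
    rw [UpperHalfPlane.isEmbedding_coe.continuous_iff]
    have : ((fun z : ℍ => (z : ℂ)) ∘ fun t : ℝ => t +ᵥ z0) = fun t : ℝ => (t : ℂ) + z0 := by
      funext t
      exact UpperHalfPlane.coe_vadd t z0
    rw [this]
    fun_prop
  have hφ : Continuous fun t : ℝ => F (A • (t +ᵥ z0)) := F.continuous.comp (hcA.comp hct)
  let AH : Set ℍ := {z | 1 < (A⁻¹ • z).im}
  have hAH : IsOpen AH := isOpen_lt continuous_const (UpperHalfPlane.continuous_im.comp hcAi)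
  have hAHm : ∀ w : ℍ, 1 < w.im → A • w ∈ AH := by
    intro w hw
    change 1 < (A⁻¹ • A • w).im
    rwa [inv_smul_smul]
  have hAHe : ∀ z ∈ AH, ∃ w : ℍ, 1 < w.im ∧ z = A • w := by
    intro z hz
    exact ⟨A⁻¹ • z, hz, (smul_inv_smul A z).symm⟩
  have hAHpi : ∀ n : ℤ, ∀ z ∈ AH, (piA A ^ n) z ∈ AH := by
    intro n z hz
    obtain ⟨w, hw, rfl⟩ := hAHe z hz
    rw [piA_zpow]
    apply hAHm
    rwa [UpperHalfPlane.vadd_im]
  have hpin : ∀ n : ℤ, piA A ^ n ∈ deck u := fun n => (deck u).zpow_mem hpi n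
  have key : ∀ t : ℝ, F (A • (t +ᵥ z0)) ∈ AH := by
    have hcl : IsClopen {t : ℝ | F (A • (t +ᵥ z0)) ∈ AH} := by
      refine ⟨?_, hAH.preimage hφ⟩
      rw [← isOpen_compl_iff, isOpen_iff_mem_nhds]
      intro t ht
      have ht' : F (A • (t +ᵥ z0)) ∉ AH := ht
      obtain ⟨w, hw, hew⟩ := hhigh _ (hz0 t)
      rw [← hF] at hew
      obtain ⟨g, hg1, hg2⟩ := hu.deck _ _ hew.symm
      have hgd : mh g ∈ deck u := by
        rw [mem_deck]
        exact ⟨g, hg2, rfl⟩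
      have hopen : IsOpen ((mh g) '' AH) := (mh g).isOpenMap _ hAH
      have hin : F (A • (t +ᵥ z0)) ∈ (mh g) '' AH := ⟨A • w, hAHm w hw, hg1⟩
      have hev : ∀ᶠ t' in 𝓝 t, F (A • (t' +ᵥ z0)) ∈ (mh g) '' AH :=
        hφ.continuousAt.eventually (hopen.mem_nhds hin)
      filter_upwards [hev] with t' ht'' hcon
      obtain ⟨y, hy, hyy⟩ := ht''
      obtain ⟨a, ha, rfl⟩ := hAHe y hy
      obtain ⟨b, hb, hbb⟩ := hAHe _ hcon
      have h1 : u (A • a) = u (A • b) := by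
        rw [← hbb, ← hyy, deck_apply hgd]
      obtain ⟨n, hn⟩ := cusp_par hA ha hb h1
      have h2 : mh g = piA A ^ n := by
        refine hag _ hgd _ (hpin n) (A • a) ?_
        rw [hn, ← hbb, ← hyy]
      apply ht'
      have h3 : F (A • (t +ᵥ z0)) = (piA A ^ n) (A • w) := by
        rw [← h2]
        exact hg1.symm
      rw [h3]
      exact hAHpi n _ (hAHm w hw)
    have h0mem : (0 : ℝ) ∈ {t : ℝ | F (A • (t +ᵥ z0)) ∈ AH} := by
      change F (A • ((0 : ℝ) +ᵥ z0)) ∈ AH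
      rw [zero_vadd, hF0]
      exact hAHm z1 hz1
    have huniv := hcl.eq_univ ⟨0, h0mem⟩
    intro t
    have : t ∈ {t : ℝ | F (A • (t +ᵥ z0)) ∈ AH} := by
      rw [huniv]
      exact mem_univ t
    exact this
  -- the conjugate
  have hG : F * piA A * F⁻¹ ∈ deck u := (hcj f F hF).1 _ hpi
  have hGapp : (F * piA A * F⁻¹) (A • z1) = F (A • ((1 : ℝ) +ᵥ z0)) := by
    rw [← hF0]
    change F (piA A (F.symm (F (A • z0)))) = _
    rw [F.symm_apply_apply]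
    congr 1
    have := piA_zpow A 1 z0
    rw [zpow_one, Int.cast_one] at this
    exact this
  obtain ⟨w1, hw1, hew1⟩ := hAHe _ (key 1)
  have h1 : u (A • z1) = u (A • w1) := by
    rw [← hew1, ← hGapp, deck_apply hG]
  obtain ⟨n, hn⟩ := cusp_par hA hz1 hw1 h1
  have h2 : F * piA A * F⁻¹ = piA A ^ n := by
    refine hag _ hG _ (hpin n) (A • z1) ?_
    rw [hn, hGapp, hew1]
  rw [h2]
  exact ((Commute.refl (piA A)).zpow_left n)

end Pool.Agent.Helper5.LN
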