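import Pool.Agent.Helper64.LN.GoalsC

set_option autoImplicit false

/-! Packet LN-IS. -/

open Topology Filter Set
open Pool.Agent.Helper78.BigMap

namespace Pool.Agent.Helper5.LN

open Helper64.LN

theorem goalIS : GoalIS := by
  intro S _
  have h0 : ∀ (H : (unitInterval × S) ≃ₜ (unitInterval × S)) (t : unitInterval) (x y : S),
      (∀ p, (H p).1 = p.1) → (H (t, x)).2 = y → H (t, x) = (t, y) := by
    intro H t x y h1 h2
    exact Prod.ext (h1 _) h2
  refine ⟨{ carrier := {f | IsotopicToId f}, mul_mem' := ?_, one_mem' := ?_, inv_mem' := ?_ },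
    ⟨?_⟩, fun f => Iff.rfl⟩
  · rintro f g ⟨H, h1, h2, h3⟩ ⟨K, k1, k2, k3⟩
    refine ⟨K.trans H, fun p => ?_, fun x => ?_, fun x => ?_⟩
    · change (H (K p)).1 = p.1
      rw [h1, k1]
    · change (H (K (0, x))).2 = x
      rw [h0 K 0 x x k1 (k2 x), h2]
    · change (H (K (1, x))).2 = f (g x)
      rw [h0 K 1 x (g x) k1 (k3 x), h3]
  · exact ⟨Homeomorph.refl _, fun _ => rfl, fun _ => rfl, fun _ => rfl⟩
  · rintro f ⟨H, h1, h2, h3⟩
    refine ⟨H.symm, fun p => ?_, fun x => ?_, fun x => ?_⟩
    · have := h1 (H.symm p)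
      rw [H.apply_symm_apply] at this
      exact this.symm
    · have h4 := h0 H 0 x x h1 (h2 x)
      have h5 := H.symm_apply_apply ((0 : unitInterval), x)
      rw [h4] at h5
      rw [h5]
    · change (H.symm (1, x)).2 = f.symm x
      have h4 := h0 H 1 (f.symm x) (f (f.symm x)) h1 (h3 _)
      rw [f.apply_symm_apply] at h4
      rw [← h4, H.symm_apply_apply]
  · rintro f ⟨H, h1, h2, h3⟩ g
    let G : (unitInterval × S) ≃ₜ (unitInterval × S) := (Homeomorph.refl unitInterval).prodCongr g
    have hG : ∀ p, G p = (p.1, g p.2) := fun _ => rfl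
    have hGs : ∀ p, G.symm p = (p.1, g.symm p.2) := fun _ => rfl
    refine ⟨(G.symm.trans H).trans G, fun p => ?_, fun x => ?_, fun x => ?_⟩
    · change (G (H (G.symm p))).1 = p.1
      rw [hG, hGs]
      exact h1 _
    · change (G (H (G.symm (0, x)))).2 = x
      rw [hG, hGs]
      change g (H (0, g.symm x)).2 = x
      rw [h2, g.apply_symm_apply]
    · change (G (H (G.symm (1, x)))).2 = g (f (g.symm x))
      rw [hG, hGs]
      change g (H (1, g.symm x)).2 = _
      rw [h3]

end Pool.Agent.Helper5.LN
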