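import Pool.Agent.Helper64.LN.GoalsB

set_option autoImplicit false

/-! Packet LN-L3. -/

open Topology Filter Set Metric UpperHalfPlane
open scoped MatrixGroups

namespace Pool.Agent.Helper5.LN

open Helper64 Helper64.LN

section
variable {X : Type*} [TopologicalSpace X]

lemma uni_mem {B : Set X} {u : ℍ → X} (hu : Uni B u) (z : ℍ) : u z ∈ (Bᶜ : Set X) := by
  rw [← hu.range]
  exact ⟨z, rfl⟩

lemma uni_isCov {B : Set X} {u : ℍ → X} (hu : Uni B u) :
    IsCoveringMap (Set.codRestrict u Bᶜ (uni_mem hu)) := by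
  have e : u ⁻¹' Bᶜ = univ := by
    ext z
    simp only [mem_preimage, mem_univ, iff_true]
    exact uni_mem hu z
  let g : ℍ ≃ₜ (u ⁻¹' Bᶜ : Set ℍ) :=
    (Homeomorph.Set.univ ℍ).symm.trans (Homeomorph.setCongr e.symm)
  have h := (hu.cov.isCoveringMap_restrictPreimage).comp_homeomorph g
  convert! h using 1

/-- Two continuous lifts of the same map that agree at a point are equal. -/
lemma uni_eq {B : Set X} {u : ℍ → X} (hu : Uni B u) {g₁ g₂ : ℍ → ℍ}
    (h₁ : Continuous g₁) (h₂ : Continuous g₂) (h : ∀ x, u (g₁ x) = u (g₂ x)) {x₀ : ℍ}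
    (h0 : g₁ x₀ = g₂ x₀) (x : ℍ) : g₁ x = g₂ x := by
  refine (uni_isCov hu).eqOn_of_comp_eqOn (s := Set.univ) isPreconnected_univ h₁.continuousOn
    h₂.continuousOn ?_ (Set.mem_univ x₀) h0 (Set.mem_univ x)
  intro x _
  apply Subtype.ext
  exact h x

end

theorem goalL3 : GoalL3 := by
  intro X _ _ B u hu
  have hi : ∀ F : ℍ ≃ₜ ℍ, (∀ z, u (F z) = u z) → F ∈ deck u := by
    intro F hF
    obtain ⟨g, hg1, hg2⟩ := hu.deck I (F I) (hF I).symm
    rw [mem_deck]
    refine ⟨g, hg2, ?_⟩
    ext1 z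
    change F z = g • z
    refine uni_eq hu F.continuous (mh g).continuous ?_ (x₀ := I) hg1.symm z
    intro x
    rw [hF x]
    exact (hg2 x).symm
  refine ⟨hi, ?_, ?_⟩
  · intro F hF G hG z hz
    ext1 w
    refine uni_eq hu F.continuous G.continuous ?_ (x₀ := z) hz w
    intro x
    rw [deck_apply hF, deck_apply hG]
  · intro f F hL
    refine ⟨?_, ?_⟩
    · intro g hg
      apply hi
      intro z
      change u (F (g (F.symm z))) = u z
      rw [hL, deck_apply hg, ← hL, F.apply_symm_apply]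
    · intro g hg
      apply hi
      intro z
      change u (F.symm (g (F z))) = u z
      apply f.injective
      rw [← hL, F.apply_symm_apply, deck_apply hg, hL]

end Pool.Agent.Helper5.LN
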