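import Pool.Agent.Helper85.LN.Goals

/-!
# Packet PVIO of project LN (MP_d0c558_al): the check of violations is primitive recursive
-/

set_option autoImplicit false

namespace Pool.Agent.Helper5.LN

open Pool.Agent.Helper85.LN Primrec

variable {α β : Type} [Primcodable α] [Primcodable β]

theorem iwC_prim {f : α → WC} (hf : Primrec f) : Primrec fun a => iwC (f a) :=
  list_reverse.comp (list_map hf
    (Primrec.pair (fst.comp snd) (Primrec.not.comp (snd.comp snd))).to₂)

theorem ltC_prim {T : α → Tab} {s : α → ℕ × Bool} {z : α → ℕ} (hT : Primrec T) (hs : Primrec s)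
    (hz : Primrec z) : Primrec fun a => ltC (T a) (s a) (z a) := by
  have h1 : Primrec fun a => (T a).1.getD (s a).1 [] :=
    (list_getD []).comp (fst.comp hT) (fst.comp hs)
  exact Primrec.cond (snd.comp hs) ((list_getD 0).comp h1 hz) (list_idxOf.comp hz h1)

theorem scC_prim {T : α → Tab} {s : α → ℕ × Bool} {z : α → ℕ} (hT : Primrec T) (hs : Primrec s)
    (hz : Primrec z) : Primrec fun a => scC (T a) (s a) (z a) := by
  have h1 : Primrec fun a => (T a).1.getD (s a).1 [] :=
    (list_getD []).comp (fst.comp hT) (fst.comp hs)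
  have h2 : Primrec fun a => (T a).2.getD (s a).1 [] :=
    (list_getD []).comp (snd.comp hT) (fst.comp hs)
  exact Primrec.cond (snd.comp hs) ((list_getD []).comp h2 hz)
    (iwC_prim ((list_getD []).comp h2 (list_idxOf.comp hz h1)))

theorem runC_prim {T : α → Tab} {w : α → WC} {z : α → ℕ} (hT : Primrec T) (hw : Primrec w)
    (hz : Primrec z) : Primrec fun a => runC (T a) (w a) (z a) := by
  have h := list_foldr (f := w) (g := fun a => (z a, ([] : WC)))
    (h := fun a (q : (ℕ × Bool) × (ℕ × WC)) =>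
      (ltC (T a) q.1 q.2.1, scC (T a) q.1 q.2.1 ++ q.2.2)) hw
    (Primrec.pair hz (Primrec.const [])) ?_
  · exact h
  · exact (Primrec.pair
      (ltC_prim (hT.comp fst) (fst.comp snd) (fst.comp (snd.comp snd)))
      (list_append.comp (scC_prim (hT.comp fst) (fst.comp snd) (fst.comp (snd.comp snd)))
        (snd.comp (snd.comp snd)))).to₂

theorem actC_prim {T : α → Tab} {w : α → WC} {u : α → List ℕ} (hT : Primrec T) (hw : Primrec w)
    (hu : Primrec u) : Primrec fun a => actC (T a) (w a) (u a) := by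
  have h := list_foldl (f := u) (g := fun a => (([] : List ℕ), w a))
    (h := fun a (q : (List ℕ × WC) × ℕ) =>
      (q.1.1 ++ [(runC (T a) q.1.2 q.2).1], (runC (T a) q.1.2 q.2).2)) hu
    (Primrec.pair (Primrec.const []) hw) ?_
  · exact h
  · have hr : Primrec fun p : α × ((List ℕ × WC) × ℕ) => runC (T p.1) p.2.1.2 p.2.2 :=
      runC_prim (hT.comp fst) (snd.comp (fst.comp snd)) (snd.comp snd)
    exact (Primrec.pair (list_append.comp (fst.comp (fst.comp snd))
      (list_cons.comp (fst.comp hr) (Primrec.const []))) (snd.comp hr)).to₂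

theorem tabA_prim {x : α → AC} (hx : Primrec x) : Primrec fun a => tabA (x a) := by
  refine Primrec.pair (snd.comp (snd.comp hx)) (list_map (fst.comp (snd.comp hx)) ?_)
  have h : Primrec fun q : α × List ℕ => q.2.map fun s => [(s, true)] :=
    list_map snd
      (list_cons.comp (Primrec.pair snd (Primrec.const true)) (Primrec.const [])).to₂
  exact h.to₂

/-- bounded quantifier over the members of a list -/
theorem ball_mem {f : α → List β} {R : α → β → Prop} (hf : Primrec f)
    (hR : PrimrecPred fun p : β × α => R p.2 p.1) : PrimrecPred fun a => ∀ b ∈ f a, R a b :=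
  (PrimrecRel.forall_mem_list (R := fun b a => R a b) hR).comp hf Primrec.id

/-- bounded quantifier over numbers -/
theorem ball_lt {f : α → ℕ} {R : α → ℕ → Prop} (hf : Primrec f)
    (hR : PrimrecPred fun p : ℕ × α => R p.2 p.1) : PrimrecPred fun a => ∀ b < f a, R a b :=
  ((PrimrecRel.forall_mem_list (R := fun b a => R a b) hR).comp (list_range.comp hf)
    Primrec.id).of_eq fun a => by simp

/-- membership in a list -/
theorem mem_prim {f : α → β} {g : α → List β} (hf : Primrec f) (hg : Primrec g) :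
    PrimrecPred fun a => f a ∈ g a := by
  have h : PrimrecPred fun a => ∃ b ∈ g a, b = f a :=
    (PrimrecRel.exists_mem_list (R := fun (b : β) (c : β) => b = c) Primrec.eq).comp hg hf
  exact h.of_eq fun a => by simp

theorem OkC_prim {m : α → ℕ} {w : α → WC} (hm : Primrec m) (hw : Primrec w) :
    PrimrecPred fun a => OkC (m a) (w a) :=
  ball_mem (β := ℕ × Bool) (R := fun a s => s.1 < m a) hw
    (Primrec.nat_lt.comp (fst.comp fst) (hm.comp snd))

theorem ne_prim {f g : α → β} (hf : Primrec f) (hg : Primrec g) :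
    PrimrecPred fun a => f a ≠ g a :=
  (Primrec.eq.comp hf hg).not

/-- Packet PVIO. -/
theorem pvio : S_PVIO := by
  have hx : Primrec fun p : AC × VC => p.1 := fst
  have hm : Primrec fun p : AC × VC => p.1.2.1.length := list_length.comp (fst.comp (snd.comp fst))
  have hd : Primrec fun p : AC × VC => p.1.1 := fst.comp fst
  have hw : Primrec fun p : AC × VC => p.2.1 := fst.comp snd
  have hu : Primrec fun p : AC × VC => p.2.2.1 := fst.comp (snd.comp snd)
  have hv : Primrec fun p : AC × VC => p.2.2.2.1 := fst.comp (snd.comp (snd.comp snd))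
  have hL : Primrec fun p : AC × VC => p.2.2.2.2 := snd.comp (snd.comp (snd.comp snd))
  have hT : Primrec fun p : AC × VC => tabA p.1 := tabA_prim hx
  have hau : Primrec fun p : AC × VC => actC (tabA p.1) p.2.1 p.2.2.1 := actC_prim hT hw hu
  have hav : Primrec fun p : AC × VC => actC (tabA p.1) p.2.1 p.2.2.2.1 := actC_prim hT hw hv
  have hrun : Primrec fun q : ℕ × (WC × (AC × VC)) => runC (tabA q.2.2.1) q.2.1 q.1 :=
    runC_prim (hT.comp (snd.comp snd)) (fst.comp snd) fst
  have h1 : PrimrecPred fun p : AC × VC => OkC p.1.2.1.length p.2.1 := OkC_prim hm hw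
  have h2 : PrimrecPred fun p : AC × VC => ∀ a ∈ p.2.2.1, a < p.1.1 :=
    ball_mem hu (Primrec.nat_lt.comp fst (hd.comp snd))
  have h3 : PrimrecPred fun p : AC × VC => ∀ a ∈ p.2.2.2.1, a < p.1.1 :=
    ball_mem hv (Primrec.nat_lt.comp fst (hd.comp snd))
  have h4 : PrimrecPred fun p : AC × VC => ∀ s ∈ p.2.2.2.2, OkC p.1.2.1.length s :=
    ball_mem hL (OkC_prim (hm.comp snd) fst)
  have h5 : PrimrecPred fun p : AC × VC => (actC (tabA p.1) p.2.1 p.2.2.1).1 = p.2.2.1 :=
    Primrec.eq.comp (fst.comp hau) hu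
  have h6 : PrimrecPred fun p : AC × VC => (actC (tabA p.1) p.2.1 p.2.2.1).2 ∈ p.2.2.2.2 :=
    mem_prim (snd.comp hau) hL
  have h7 : PrimrecPred fun p : AC × VC => ∀ s ∈ p.2.2.2.2, ∀ a < p.1.1,
      (runC (tabA p.1) s a).1 = a ∧ (runC (tabA p.1) s a).2 ∈ p.2.2.2.2 := by
    refine ball_mem (R := fun (p : AC × VC) (s : WC) => ∀ a < p.1.1,
      (runC (tabA p.1) s a).1 = a ∧ (runC (tabA p.1) s a).2 ∈ p.2.2.2.2) hL ?_
    refine ball_lt (α := WC × (AC × VC)) (f := fun q => q.2.1.1)
      (R := fun q a => (runC (tabA q.2.1) q.1 a).1 = a ∧ (runC (tabA q.2.1) q.1 a).2 ∈ q.2.2.2.2.2)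
      (hd.comp snd) ?_
    exact (Primrec.eq.comp (fst.comp hrun) fst).and
      (mem_prim (snd.comp hrun) (hL.comp (snd.comp snd)))
  have h8 : PrimrecPred fun p : AC × VC => (actC (tabA p.1) p.2.1 p.2.2.2.1).1 ≠ p.2.2.2.1 :=
    ne_prim (fst.comp hav) hv
  exact (h1.and (h2.and (h3.and h4))).and (h5.and (h6.and (h7.and h8)))

end Pool.Agent.Helper5.LN
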