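import Pool.Agent.Helper64.LN.GoalsA

set_option autoImplicit false

/-! Packet LN-R0. -/

namespace Pool.Agent.Helper5.LN

open Helper64.LN

theorem goalR0 : GoalR0 := by
  intro H _ D Sp l r sd γ π G S
  -- conjugation
  have tr : ∀ k ∈ D, ∀ h g g' : H, Sp (h * γ * h⁻¹) (g * π * g⁻¹) (g' * π * g'⁻¹) →
      Sp ((k * h) * γ * (k * h)⁻¹) ((k * g) * π * (k * g)⁻¹) ((k * g') * π * (k * g')⁻¹) := by
    intro k hk h g g' hs
    have := G.conj k hk _ _ _ hs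
    have e1 : ∀ x y : H, k * (x * y * x⁻¹) * k⁻¹ = (k * x) * y * (k * x)⁻¹ := by
      intro x y
      group
    rwa [e1, e1, e1] at this
  have mc : ∀ g ∈ D, ∀ x ∈ D, g * x * g⁻¹ ∈ D := fun g hg x hx =>
    D.mul_mem (D.mul_mem hg hx) (D.inv_mem hg)
  have hHp : ∀ h ∈ D, Hp D Sp (h * γ * h⁻¹) := by
    intro h hh
    obtain ⟨e, he, hc⟩ := S.hp
    refine ⟨h * e * h⁻¹, mc h hh e he, ?_⟩
    have := G.conj h hh _ _ _ hc
    unfold Cr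
    have e1 : (h * e * h⁻¹)⁻¹ = h * e⁻¹ * h⁻¹ := by group
    rw [e1]
    exact this
  have hNc : ∀ h ∈ D, ∀ g ∈ D, Nc (h * γ * h⁻¹) (g * π * g⁻¹) := by
    intro h hh g hg hcom
    obtain ⟨e, he, hc⟩ := hHp h hh
    have hne : g * π * g⁻¹ ≠ 1 := by
      intro h1
      apply S.one
      have : π = g⁻¹ * (g * π * g⁻¹) * g := by group
      rw [this, h1]
      group
    have h2 := G.crcom _ (mc h hh γ S.mem) e he _ (mc g hg π S.memπ) hc hcom hne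
    have h3 := G.conj g⁻¹ (D.inv_mem hg) _ _ _ h2
    have e1 : g⁻¹ * (g * π * g⁻¹) * g⁻¹⁻¹ = π := by group
    have e2 : g⁻¹ * e⁻¹ * g⁻¹⁻¹ = (g⁻¹ * e * g)⁻¹ := by group
    have e3 : g⁻¹ * e * g⁻¹⁻¹ = g⁻¹ * e * g := by group
    rw [e1, e2, e3] at h3
    exact (S.par (g⁻¹ * e * g) (D.mul_mem (D.mul_mem (D.inv_mem hg) he) hg)).1 h3
  have sd1 : ∀ h ∈ D, ∀ g ∈ D, ∀ g' ∈ D,
      (Sp (h * γ * h⁻¹) (g * π * g⁻¹) (g' * π * g'⁻¹) ↔
        (sd (h * γ * h⁻¹) (g * π * g⁻¹) ↔ ¬ sd (h * γ * h⁻¹) (g' * π * g'⁻¹))) := by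
    intro h hh g hg g' hg'
    exact G.side _ (mc h hh γ S.mem) _ (mc g hg π S.memπ) _ (mc g' hg' π S.memπ) (hHp h hh)
      (hNc h hh g hg) (hNc h hh g' hg')
  have mem : ∀ g, g ∈ AA D Sp γ π ↔
      (g ∈ D ∧ ∀ h ∈ D, ¬ Sp (h * γ * h⁻¹) (g * π * g⁻¹) (1 * π * 1⁻¹)) := by
    intro g
    have : (1 : H) * π * 1⁻¹ = π := by group
    rw [this]
    rfl
  refine ⟨{ carrier := AA D Sp γ π, mul_mem' := ?_, one_mem' := ?_, inv_mem' := ?_ }, rfl⟩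
  · intro g g' hg hg'
    rw [mem] at hg hg' ⊢
    refine ⟨D.mul_mem hg.1 hg'.1, ?_⟩
    intro h hh hs
    have h1 := hg.2 h hh
    have h2 : ¬ Sp (h * γ * h⁻¹) ((g * g') * π * (g * g')⁻¹) (g * π * g⁻¹) := by
      intro h3
      have h4 := tr g⁻¹ (D.inv_mem hg.1) _ _ _ h3
      have e1 : g⁻¹ * (g * g') = g' := by group
      have e2 : g⁻¹ * g = 1 := by group
      rw [e1, e2] at h4
      exact hg'.2 (g⁻¹ * h) (D.mul_mem (D.inv_mem hg.1) hh) h4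
    rw [sd1 h hh _ hg.1 _ D.one_mem] at h1
    rw [sd1 h hh _ (D.mul_mem hg.1 hg'.1) _ hg.1] at h2
    rw [sd1 h hh _ (D.mul_mem hg.1 hg'.1) _ D.one_mem] at hs
    tauto
  · rw [mem]
    refine ⟨D.one_mem, ?_⟩
    intro h hh hs
    rw [sd1 h hh _ D.one_mem _ D.one_mem] at hs
    tauto
  · intro g hg
    rw [mem] at hg ⊢
    refine ⟨D.inv_mem hg.1, ?_⟩
    intro h hh hs
    have h4 := tr g hg.1 _ _ _ hs
    have e1 : g * g⁻¹ = 1 := by group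
    have e2 : g * 1 = g := by group
    rw [e1, e2] at h4
    have hm := D.mul_mem hg.1 hh
    have h1 := hg.2 (g * h) hm
    rw [sd1 _ hm _ D.one_mem _ hg.1] at h4
    rw [sd1 _ hm _ hg.1 _ D.one_mem] at h1
    tauto

end Pool.Agent.Helper5.LN
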