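import Pool.Agent.Helper64.LN.GoalsA

set_option autoImplicit false

/-! Packet LN-R1, with some lemmas that can be used for the other goals `R`. -/

namespace Pool.Agent.Helper5.LN

open Helper64.LN

section
variable {H : Type} [Group H] {D : Subgroup H} {Sp : H → H → H → Prop} {l r : H → H → ℝ}
  {sd : H → H → Prop}

lemma r_mc {g x : H} (hg : g ∈ D) (hx : x ∈ D) : g * x * g⁻¹ ∈ D :=
  D.mul_mem (D.mul_mem hg hx) (D.inv_mem hg)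

lemma r_cr (G : Geo D Sp l r sd) {g a b : H} (hg : g ∈ D) (h : Cr Sp a b) :
    Cr Sp (g * a * g⁻¹) (g * b * g⁻¹) := by
  unfold Cr at h ⊢
  have e : (g * b * g⁻¹)⁻¹ = g * b⁻¹ * g⁻¹ := by group
  rw [e]
  exact G.conj g hg _ _ _ h

lemma r_cr_iff (G : Geo D Sp l r sd) {g a b : H} (hg : g ∈ D) :
    Cr Sp (g * a * g⁻¹) (g * b * g⁻¹) ↔ Cr Sp a b := by
  refine ⟨fun h => ?_, r_cr G hg⟩
  have := r_cr G (D.inv_mem hg) h
  have e : ∀ x : H, g⁻¹ * (g * x * g⁻¹) * g⁻¹⁻¹ = x := by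
    intro x
    group
  rwa [e, e] at this

lemma r_sp_iff (G : Geo D Sp l r sd) {g a b c : H} (hg : g ∈ D) :
    Sp (g * a * g⁻¹) (g * b * g⁻¹) (g * c * g⁻¹) ↔ Sp a b c := by
  refine ⟨fun h => ?_, G.conj g hg _ _ _⟩
  have := G.conj g⁻¹ (D.inv_mem hg) _ _ _ h
  have e : ∀ x : H, g⁻¹ * (g * x * g⁻¹) * g⁻¹⁻¹ = x := by
    intro x
    group
  rwa [e, e, e] at this

lemma r_hp (G : Geo D Sp l r sd) {g a : H} (hg : g ∈ D) (h : Hp D Sp a) :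
    Hp D Sp (g * a * g⁻¹) := by
  obtain ⟨e, he, hc⟩ := h
  exact ⟨g * e * g⁻¹, r_mc hg he, r_cr G hg hc⟩

lemma r_nc_iff {g a b : H} : Nc (g * a * g⁻¹) (g * b * g⁻¹) ↔ Nc a b := by
  unfold Nc
  have e : ∀ x y : H, g * x * g⁻¹ * (g * y * g⁻¹) = g * (x * y) * g⁻¹ := by
    intro x y
    group
  rw [e, e]
  constructor
  · intro h h1
    exact h (by rw [h1])
  · intro h h1
    apply h
    exact mul_left_cancel (mul_right_cancel h1)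

/-- A hyperbolic element does not commute with a cusp. -/
lemma r_ncπ (G : Geo D Sp l r sd) {γ π : H} (S : SimC D Sp γ π) {c : H} (hc : c ∈ D)
    (hh : Hp D Sp c) {g : H} (hg : g ∈ D) : Nc c (g * π * g⁻¹) := by
  intro hcom
  obtain ⟨e, he, hcr⟩ := hh
  have hne : g * π * g⁻¹ ≠ 1 := by
    intro h1
    apply S.one
    have : π = g⁻¹ * (g * π * g⁻¹) * g := by group
    rw [this, h1]
    group
  have h2 := G.crcom _ hc e he _ (r_mc hg S.memπ) hcr hcom hne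
  have h3 : Cr Sp (g * π * g⁻¹) (g * (g⁻¹ * e * g) * g⁻¹) := by
    have e1 : g * (g⁻¹ * e * g) * g⁻¹ = e := by group
    rwa [e1]
  rw [r_cr_iff G hg] at h3
  exact (S.par _ (D.mul_mem (D.mul_mem (D.inv_mem hg) he) hg)).1 h3

lemma r_ncπ' (G : Geo D Sp l r sd) {γ π : H} (S : SimC D Sp γ π) {c : H} (hc : c ∈ D)
    (hh : Hp D Sp c) : Nc c π := by
  have := r_ncπ G S hc hh D.one_mem
  simpa using this

/-- Conjugates of `γ` and `γ'` do not cross and do not commute. -/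
lemma r_disj (G : Geo D Sp l r sd) {γ γ' : H} (hγ : γ ∈ D) (hγ' : γ' ∈ D)
    (hd : Disj D Sp γ γ') {h k : H} (hh : h ∈ D) (hk : k ∈ D) :
    (¬ Cr Sp (h * γ * h⁻¹) (k * γ' * k⁻¹) ∧ ¬ Cr Sp (k * γ' * k⁻¹) (h * γ * h⁻¹)) ∧
      Nc (h * γ * h⁻¹) (k * γ' * k⁻¹) ∧ Nc (k * γ' * k⁻¹) (h * γ * h⁻¹) := by
  have hm : h⁻¹ * k ∈ D := D.mul_mem (D.inv_mem hh) hk
  obtain ⟨h1, h2⟩ := hd (h⁻¹ * k) hm
  have e : k * γ' * k⁻¹ = h * ((h⁻¹ * k) * γ' * (h⁻¹ * k)⁻¹) * h⁻¹ := by group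
  have a1 : ¬ Cr Sp (h * γ * h⁻¹) (k * γ' * k⁻¹) := by
    rw [e, r_cr_iff G hh]
    exact h1
  have a2 : Nc (h * γ * h⁻¹) (k * γ' * k⁻¹) := by
    rw [e, r_nc_iff]
    exact h2
  refine ⟨⟨a1, fun h3 => a1 (G.symm _ (r_mc hk hγ') _ (r_mc hh hγ) h3)⟩, a2, ?_⟩
  intro h3
  exact a2 h3.symm

end

theorem goalR1 : GoalR1 := by
  intro H _ D Sp l r sd γ π γ' G S hγ' hp' hd hB g hg
  refine ⟨hg.1, ?_⟩
  intro k hk hs
  obtain ⟨g₀, hg₀, hsp⟩ := hB k⁻¹ (D.inv_mem hk)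
  have hm : k * g₀ ∈ D := D.mul_mem hk hg₀
  have hsp' : Sp ((k * g₀) * γ * (k * g₀)⁻¹) π (k * γ' * k⁻¹) := by
    have := G.conj k hk _ _ _ hsp
    have e1 : k * (g₀ * γ * g₀⁻¹) * k⁻¹ = (k * g₀) * γ * (k * g₀)⁻¹ := by group
    have e2 : k * (k⁻¹ * π * k⁻¹⁻¹) * k⁻¹ = π := by group
    rwa [e1, e2] at this
  have hx := hg.2 (k * g₀) hm
  obtain ⟨⟨d1, d2⟩, d3, d4⟩ := r_disj G S.mem hγ' hd hm hk
  have hp1 := r_hp G hm S.hp
  have hp2 := r_hp G hk hp'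
  have m1 : (k * g₀) * γ * (k * g₀)⁻¹ ∈ D := r_mc hm S.mem
  have m2 : k * γ' * k⁻¹ ∈ D := r_mc hk hγ'
  have c1 := r_ncπ' G S m1 hp1
  have c2 := r_ncπ' G S m2 hp2
  have c3 := r_ncπ G S m1 hp1 hg.1
  have c4 := r_ncπ G S m2 hp2 hg.1
  generalize (k * g₀) * γ * (k * g₀)⁻¹ = lam at *
  generalize k * γ' * k⁻¹ = lam' at *
  have mx : g * π * g⁻¹ ∈ D := r_mc hg.1 S.memπ
  generalize g * π * g⁻¹ = x at *
  have n1 := G.n1 lam' m2 lam m1 π S.memπ hp2 hp1 d2 d4 c2 c1 hsp'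
  rw [G.side lam' m2 π S.memπ lam m1 hp2 c2 d4] at n1
  rw [G.side lam' m2 x mx π S.memπ hp2 c4 c2] at hs
  have hs2 : Sp lam' x lam := by
    rw [G.side lam' m2 x mx lam m1 hp2 c4 d4]
    tauto
  have n2 := G.n1 lam m1 lam' m2 x mx hp1 hp2 d1 d3 c3 c4 hs2
  rw [G.side lam m1 x mx lam' m2 hp1 c3 d3] at n2
  rw [G.side lam m1 π S.memπ lam' m2 hp1 c1 d3] at hsp'
  apply hx
  rw [G.side lam m1 x mx π S.memπ hp1 c3 c1]
  tauto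

end Pool.Agent.Helper5.LN
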