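import Pool.Agent.Helper64.LN.GoalsA

set_option autoImplicit false

/-! Packet LN-T4. -/

namespace Pool.Agent.Helper5.LN

open Helper64.LN

section
variable {H : Type} [Group H]

lemma t4_pow_conj (a x : H) (n : ℕ) :
    a ^ (n + 1) * x * (a ^ (n + 1))⁻¹ = a * (a ^ n * x * (a ^ n)⁻¹) * a⁻¹ := by
  rw [pow_succ']
  group

lemma t4_inv_conj (a x : H) : (a * x * a⁻¹)⁻¹ = a * x⁻¹ * a⁻¹ := by group

end

theorem goalT4 : GoalT4 := by
  intro H _ D Sp l r sd γ Φ G hγ hcom hnorm hinv hex b hb hc n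
  have conjN : ∀ n : ℕ, ∀ x ∈ D, Φ ^ n * x * (Φ ^ n)⁻¹ ∈ D := by
    intro n
    induction n with
    | zero => intro x hx; simpa using hx
    | succ n ih =>
      intro x hx
      rw [t4_pow_conj]
      exact hnorm _ (ih x hx)
  have spN : ∀ (n : ℕ) (a b c : H), Sp (Φ ^ n * a * (Φ ^ n)⁻¹) (Φ ^ n * b * (Φ ^ n)⁻¹)
      (Φ ^ n * c * (Φ ^ n)⁻¹) ↔ Sp a b c := by
    intro n
    induction n with
    | zero => intro a b c; simp
    | succ n ih =>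
      intro a b c
      rw [t4_pow_conj, t4_pow_conj, t4_pow_conj, hinv, ih]
  have crN : ∀ (n : ℕ) (a b : H), Cr Sp (Φ ^ n * a * (Φ ^ n)⁻¹) (Φ ^ n * b * (Φ ^ n)⁻¹) ↔
      Cr Sp a b := by
    intro n a b
    unfold Cr
    rw [t4_inv_conj, spN]
  have conjD : ∀ g ∈ D, ∀ a b : H, Cr Sp a b → Cr Sp (g * a * g⁻¹) (g * b * g⁻¹) := by
    intro g hg a b h
    unfold Cr at h ⊢
    rw [t4_inv_conj]
    exact G.conj g hg _ _ _ h
  have fixγ : ∀ n : ℕ, Φ ^ n * γ * (Φ ^ n)⁻¹ = γ := by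
    intro n
    induction n with
    | zero => simp
    | succ n ih =>
      rw [t4_pow_conj, ih, hcom]
      group
  obtain ⟨γ₁, hγ₁, γ₂, hγ₂, nc₁, nc₂, ncr₁, ncr₂, s₁, s₂, c₁, c₂, hsp, f₁, f₂⟩ := hex b hb hc
  have fix₁ : ∀ n : ℕ, Φ ^ n * γ₁ * (Φ ^ n)⁻¹ = γ₁ := by
    intro n
    induction n with
    | zero => simp
    | succ n ih => rw [t4_pow_conj, ih, f₁]
  have fix₂ : ∀ n : ℕ, Φ ^ n * γ₂ * (Φ ^ n)⁻¹ = γ ^ n * γ₂ * (γ ^ n)⁻¹ := by
    intro n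
    induction n with
    | zero => simp
    | succ n ih =>
      rw [t4_pow_conj, ih]
      have hc' : Φ * γ ^ n = γ ^ n * Φ := (show Commute Φ γ from hcom).pow_right n
      have e1 : Φ * (γ ^ n * γ₂ * (γ ^ n)⁻¹) * Φ⁻¹ =
          (Φ * γ ^ n) * γ₂ * (Φ * γ ^ n)⁻¹ := by group
      rw [e1, hc']
      have e2 : (γ ^ n * Φ) * γ₂ * (γ ^ n * Φ)⁻¹ = γ ^ n * (Φ * γ₂ * Φ⁻¹) * (γ ^ n)⁻¹ := by group
      rw [e2, f₂, pow_succ]
      group
  have shiftN : ∀ (m : ℕ), ∀ c ∈ D, Cr Sp γ c →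
      (γ ^ m * c * (γ ^ m)⁻¹ ∈ D ∧ Cr Sp γ (γ ^ m * c * (γ ^ m)⁻¹)) ∧
      l γ (γ ^ m * c * (γ ^ m)⁻¹) = l γ c + m ∧ r γ (γ ^ m * c * (γ ^ m)⁻¹) = r γ c + m := by
    intro m
    induction m with
    | zero => intro c hc hcr; simp [hc, hcr]
    | succ m ih =>
      intro c hc hcr
      obtain ⟨⟨h1, h2⟩, h3, h4⟩ := ih c hc hcr
      rw [t4_pow_conj]
      obtain ⟨h5, h6⟩ := G.shift γ hγ _ h1 h2
      refine ⟨⟨D.mul_mem (D.mul_mem hγ h1) (D.inv_mem hγ), ?_⟩, ?_, ?_⟩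
      · have := conjD γ hγ _ _ h2
        have e : γ * γ * γ⁻¹ = γ := by group
        rwa [e] at this
      · rw [h5, h3]; push_cast; ring
      · rw [h6, h4]; push_cast; ring
  set bn := Φ ^ n * b * (Φ ^ n)⁻¹ with hbn
  have hbnD : bn ∈ D := conjN n b hb
  have hcbn : Cr Sp γ bn := by
    have := (crN n γ b).2 hc
    rwa [fixγ] at this
  have hc1bn : Cr Sp γ₁ bn := by
    have := (crN n γ₁ b).2 c₁
    rwa [fix₁] at this
  set b' := (γ ^ n)⁻¹ * bn * γ ^ n with hb'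
  have hγn : γ ^ n ∈ D := D.pow_mem hγ n
  have hb'D : b' ∈ D := D.mul_mem (D.mul_mem (D.inv_mem hγn) hbnD) hγn
  have hcb' : Cr Sp γ b' := by
    have := conjD (γ ^ n)⁻¹ (D.inv_mem hγn) _ _ hcbn
    rw [inv_inv] at this
    have e : (γ ^ n)⁻¹ * γ * γ ^ n = γ := by group
    rwa [e] at this
  have hc2b' : Cr Sp γ₂ b' := by
    have h1 := (crN n γ₂ b).2 c₂
    rw [fix₂] at h1
    have := conjD (γ ^ n)⁻¹ (D.inv_mem hγn) _ _ h1
    rw [inv_inv] at this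
    have e : (γ ^ n)⁻¹ * (γ ^ n * γ₂ * (γ ^ n)⁻¹) * γ ^ n = γ₂ := by group
    rwa [e] at this
  have hback : γ ^ n * b' * (γ ^ n)⁻¹ = bn := by
    rw [hb']
    group
  obtain ⟨-, hl, hr⟩ := shiftN n b' hb'D hcb'
  rw [hback] at hl hr
  refine ⟨hbnD, hcbn, ?_⟩
  have hHp : Hp D Sp γ := ⟨b, hb, hc⟩
  have hside := (G.side γ hγ γ₁ hγ₁ γ₂ hγ₂ hHp nc₁ nc₂).1 hsp
  have n1 := G.near γ hγ γ₁ hγ₁ b hb bn hbnD hc hcbn c₁ hc1bn ncr₁ nc₁ s₁
  have n2 := G.near γ hγ γ₂ hγ₂ b hb b' hb'D hc hcb' c₂ hc2b' ncr₂ nc₂ s₂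
  have key : |tw l r γ bn - tw l r γ b - n| ≤ 2 ∨ |tw l r γ bn - tw l r γ b + n| ≤ 2 := by
    unfold tw
    by_cases h : sd γ γ₁
    · left
      have h2 : ¬ sd γ γ₂ := hside.1 h
      have a1 := abs_lt.1 (n1.1 h)
      have a2 := abs_lt.1 (n2.2 h2)
      rw [abs_le]
      constructor <;> linarith [a1.1, a1.2, a2.1, a2.2]
    · right
      have h2 : sd γ γ₂ := by
        by_contra h3
        exact h (hside.2 h3)
      have a1 := abs_lt.1 (n1.2 h)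
      have a2 := abs_lt.1 (n2.1 h2)
      rw [abs_le]
      constructor <;> linarith [a1.1, a1.2, a2.1, a2.2]
  have hn : (0 : ℝ) ≤ n := Nat.cast_nonneg n
  generalize tw l r γ bn - tw l r γ b = T at key
  rcases key with h | h
  · have h' := abs_le.1 h
    rw [abs_le]
    constructor
    · have := le_abs_self T
      linarith [h'.1]
    · rcases abs_cases T with ⟨e, _⟩ | ⟨e, _⟩
      · rw [e]; linarith [h'.2]
      · rw [e]; linarith [h'.1]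
  · have h' := abs_le.1 h
    rw [abs_le]
    constructor
    · have := neg_abs_le T
      linarith [h'.2]
    · rcases abs_cases T with ⟨e, _⟩ | ⟨e, _⟩
      · rw [e]; linarith [h'.2]
      · rw [e]; linarith [h'.1]

end Pool.Agent.Helper5.LN
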